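import Mathlib

set_option autoImplicit false

/-!
# Tools for square integrable functions
-/

open MeasureTheory Filter Topology Set
open scoped ContDiff InnerProductSpace

namespace Pool.Agent.Q272.AV

variable {X : Type*} [MeasurableSpace X] {μ : Measure X}
variable {F : Type*} [NormedAddCommGroup F] [InnerProductSpace ℝ F]

lemma inner_toLp {a u : X → F} (ha : MemLp a 2 μ) (hu : MemLp u 2 μ) :
    ⟪ha.toLp a, hu.toLp u⟫_ℝ = ∫ x, ⟪a x, u x⟫_ℝ ∂μ := by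
  rw [L2.inner_def]
  apply integral_congr_ae
  filter_upwards [ha.coeFn_toLp, hu.coeFn_toLp] with x h1 h2
  rw [h1, h2]

lemma integrable_inner {a u : X → F} (ha : MemLp a 2 μ) (hu : MemLp u 2 μ) :
    Integrable (fun x => ⟪a x, u x⟫_ℝ) μ := by
  have := L2.integrable_inner (𝕜 := ℝ) (ha.toLp a) (hu.toLp u)
  refine this.congr ?_
  filter_upwards [ha.coeFn_toLp, hu.coeFn_toLp] with x h1 h2
  rw [h1, h2]

lemma integrable_sq {a : X → F} (ha : MemLp a 2 μ) : Integrable (fun x => ‖a x‖ ^ 2) μ := by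
  refine (integrable_inner ha ha).congr ?_
  filter_upwards with x
  rw [real_inner_self_eq_norm_sq]

lemma cs {a u : X → F} (ha : MemLp a 2 μ) (hu : MemLp u 2 μ) :
    (∫ x, ⟪a x, u x⟫_ℝ ∂μ) ^ 2 ≤ (∫ x, ‖a x‖ ^ 2 ∂μ) * ∫ x, ‖u x‖ ^ 2 ∂μ := by
  have h := real_inner_mul_inner_self_le (ha.toLp a) (hu.toLp u)
  rw [inner_toLp ha hu, inner_toLp ha ha, inner_toLp hu hu] at h
  simp only [real_inner_self_eq_norm_sq] at h
  rw [sq]
  exact h

lemma lim_inner {a v : X → F} {u : ℕ → X → F} (ha : MemLp a 2 μ) (hu : ∀ k, MemLp (u k) 2 μ)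
    (hv : MemLp v 2 μ) (h : Tendsto (fun k => ∫ x, ‖u k x - v x‖ ^ 2 ∂μ) atTop (𝓝 0)) :
    Tendsto (fun k => ∫ x, ⟪a x, u k x⟫_ℝ ∂μ) atTop (𝓝 (∫ x, ⟪a x, v x⟫_ℝ ∂μ)) := by
  rw [tendsto_iff_norm_sub_tendsto_zero]
  have h1 : Tendsto (fun k => √((∫ x, ‖a x‖ ^ 2 ∂μ) * ∫ x, ‖u k x - v x‖ ^ 2 ∂μ)) atTop
      (𝓝 0) := by
    have := (h.const_mul (∫ x, ‖a x‖ ^ 2 ∂μ)).sqrt
    simpa using this
  refine squeeze_zero (fun k => norm_nonneg _) (fun k => ?_) h1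
  rw [Real.norm_eq_abs]
  apply Real.abs_le_sqrt
  have e : (∫ x, ⟪a x, u k x⟫_ℝ ∂μ) - ∫ x, ⟪a x, v x⟫_ℝ ∂μ = ∫ x, ⟪a x, u k x - v x⟫_ℝ ∂μ := by
    rw [← integral_sub (integrable_inner ha (hu k)) (integrable_inner ha hv)]
    apply integral_congr_ae
    filter_upwards with x
    rw [inner_sub_right]
  rw [e]
  exact cs ha ((hu k).sub hv)

lemma integrable_mul {a u : X → ℝ} (ha : MemLp a 2 μ) (hu : MemLp u 2 μ) :
    Integrable (fun x => a x * u x) μ := by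
  refine (integrable_inner ha hu).congr ?_
  filter_upwards with x
  simp [mul_comm]

lemma lim_mul {a v : X → ℝ} {u : ℕ → X → ℝ} (ha : MemLp a 2 μ) (hu : ∀ k, MemLp (u k) 2 μ)
    (hv : MemLp v 2 μ) (h : Tendsto (fun k => ∫ x, (u k x - v x) ^ 2 ∂μ) atTop (𝓝 0)) :
    Tendsto (fun k => ∫ x, a x * u k x ∂μ) atTop (𝓝 (∫ x, a x * v x ∂μ)) := by
  have h1 : Tendsto (fun k => ∫ x, ‖u k x - v x‖ ^ 2 ∂μ) atTop (𝓝 0) := by
    simpa only [Real.norm_eq_abs, sq_abs] using h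
  have h2 := lim_inner ha hu hv h1
  have e : ∀ w : X → ℝ, ∫ x, ⟪a x, w x⟫_ℝ ∂μ = ∫ x, a x * w x ∂μ := by
    intro w
    apply integral_congr_ae
    filter_upwards with x
    simp [mul_comm]
  simp only [e] at h2
  exact h2

end Pool.Agent.Q272.AV
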