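import Pool.Agent.Q62.AV.Stm
import Pool.Agent.Q272.AV.L2

set_option autoImplicit false

/-!
# Job AV-V1: the weighted identity
-/

open MeasureTheory Filter Topology Set
open scoped ContDiff InnerProductSpace

namespace Pool.Agent.Q272.AV

open Pool.Agent.Q62.AV

variable {n : ℕ}

lemma wt_pos (x₀ x : Eu n) : 0 < wt x₀ x := by
  unfold wt
  positivity

lemma wt_contDiff (x₀ : Eu n) : ContDiff ℝ ∞ (wt x₀) := by
  unfold wt
  apply ContDiff.sqrt
  · exact contDiff_const.add ((contDiff_id.sub contDiff_const).norm_sq ℝ)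
  · intro x
    positivity

lemma wt_le (x₀ x y : Eu n) : wt x₀ x ≤ wt x₀ y + dist x y := by
  unfold wt
  have h1 : ‖x - x₀‖ ≤ ‖y - x₀‖ + dist x y := by
    rw [dist_eq_norm]
    calc ‖x - x₀‖ = ‖(y - x₀) + (x - y)‖ := by congr 1; abel
      _ ≤ _ := norm_add_le _ _
  have h2 : 0 ≤ dist x y := dist_nonneg
  have h3 : 0 ≤ ‖x - x₀‖ := norm_nonneg _
  have h4 : 0 ≤ ‖y - x₀‖ := norm_nonneg _
  rw [Real.sqrt_le_left (by positivity)]
  have h5 : ‖y - x₀‖ ≤ √(1 + ‖y - x₀‖ ^ 2) := by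
    apply Real.le_sqrt_of_sq_le
    linarith
  have h6 : √(1 + ‖y - x₀‖ ^ 2) ^ 2 = 1 + ‖y - x₀‖ ^ 2 := Real.sq_sqrt (by positivity)
  have h7 : ‖x - x₀‖ ^ 2 ≤ (‖y - x₀‖ + dist x y) ^ 2 := pow_le_pow_left₀ h3 h1 2
  nlinarith

lemma wt_lip (x₀ : Eu n) : LipschitzWith 1 (wt x₀) := by
  apply LipschitzWith.of_dist_le_mul
  intro x y
  rw [NNReal.coe_one, one_mul, Real.dist_eq, abs_le]
  have h1 := wt_le x₀ x y
  have h2 := wt_le x₀ y x
  rw [dist_comm y x] at h2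
  constructor <;> linarith

lemma norm_gradient_wt (x₀ x : Eu n) : ‖gradient (wt x₀) x‖ ≤ 1 := by
  unfold gradient
  rw [LinearIsometryEquiv.norm_map]
  exact_mod_cast norm_fderiv_le_of_lipschitz ℝ (wt_lip x₀)

/-- The weight. -/
noncomputable def Wf (x₀ : Eu n) (κ : ℝ) (x : Eu n) : ℝ := Real.exp (2 * κ * wt x₀ x)

lemma Wf_pos (x₀ : Eu n) (κ : ℝ) (x : Eu n) : 0 < Wf x₀ κ x := Real.exp_pos _

lemma Wf_contDiff (x₀ : Eu n) (κ : ℝ) : ContDiff ℝ ∞ (Wf x₀ κ) :=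
  (contDiff_const.mul (wt_contDiff x₀)).exp

lemma wt_bdd {G : Set (Eu n)} (hG : Bornology.IsBounded G) (x₀ : Eu n) :
    ∃ C : ℝ, ∀ x ∈ G, wt x₀ x ≤ C := by
  obtain ⟨r, hr⟩ := hG.subset_closedBall x₀
  refine ⟨√(1 + r ^ 2), fun x hx => ?_⟩
  have h := hr hx
  rw [mem_closedBall_iff_norm] at h
  unfold wt
  apply Real.sqrt_le_sqrt
  have := pow_le_pow_left₀ (norm_nonneg _) h 2
  linarith

lemma Wf_bdd {G : Set (Eu n)} (hG : Bornology.IsBounded G) (x₀ : Eu n) (κ : ℝ) (hκ : 0 ≤ κ) :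
    ∃ C : ℝ, 0 ≤ C ∧ ∀ x ∈ G, Wf x₀ κ x ≤ C := by
  obtain ⟨C, hC⟩ := wt_bdd hG x₀
  refine ⟨Real.exp (2 * κ * C), (Real.exp_pos _).le, fun x hx => ?_⟩
  unfold Wf
  apply Real.exp_le_exp.2
  have := hC x hx
  nlinarith

lemma testIn_mul {G : Set (Eu n)} {φ : Eu n → ℝ} (h : TestIn G φ) (x₀ : Eu n) (κ : ℝ) :
    TestIn G (fun x => Wf x₀ κ x * φ x) := by
  refine ⟨(Wf_contDiff x₀ κ).mul h.1, h.2.1.mul_left, ?_⟩
  exact (tsupport_mul_subset_right).trans h.2.2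

lemma gradient_smooth_mul (f φ : Eu n → ℝ) (x : Eu n) (hf : DifferentiableAt ℝ f x)
    (hφ : DifferentiableAt ℝ φ x) :
    gradient (fun y => f y * φ y) x = f x • gradient φ x + φ x • gradient f x := by
  unfold gradient
  have h1 : fderiv ℝ (fun y => f y * φ y) x = f x • fderiv ℝ φ x + φ x • fderiv ℝ f x :=
    (hf.hasFDerivAt.mul hφ.hasFDerivAt).fderiv
  rw [h1, map_add]
  simp

lemma gradient_Wf (x₀ : Eu n) (κ : ℝ) (x : Eu n) :
    gradient (Wf x₀ κ) x = (2 * κ * Wf x₀ κ x) • gradient (wt x₀) x := by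
  unfold gradient
  have hd : DifferentiableAt ℝ (wt x₀) x :=
    (wt_contDiff x₀).contDiffAt.differentiableAt (by norm_num)
  have h1 : fderiv ℝ (Wf x₀ κ) x = Wf x₀ κ x • ((2 * κ) • fderiv ℝ (wt x₀) x) := by
    have h2 := (hd.hasFDerivAt.const_mul (2 * κ)).exp
    exact h2.fderiv
  rw [h1]
  simp only [map_smul, smul_smul]
  have e : Wf x₀ κ x * (2 * κ) = 2 * κ * Wf x₀ κ x := by ring
  simp [smul_smul, e]

lemma gradient_test (x₀ : Eu n) (κ : ℝ) {G : Set (Eu n)} {φ : Eu n → ℝ} (h : TestIn G φ)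
    (x : Eu n) : gradient (fun y => Wf x₀ κ y * φ y) x =
      Wf x₀ κ x • gradient φ x + (2 * κ * (Wf x₀ κ x * φ x)) • gradient (wt x₀) x := by
  rw [gradient_smooth_mul _ _ x ((Wf_contDiff x₀ κ).contDiffAt.differentiableAt (by norm_num))
    (h.1.contDiffAt.differentiableAt (by norm_num)), gradient_Wf, smul_smul]
  congr 2
  ring

lemma gradient_continuous {f : Eu n → ℝ} (hf : ContDiff ℝ ∞ f) : Continuous (gradient f) := by
  unfold gradient
  exact (LinearIsometryEquiv.continuous _).comp (hf.continuous_fderiv (by norm_num))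

lemma memLp_test {G : Set (Eu n)} {φ : Eu n → ℝ} (h : TestIn G φ) :
    MemLp φ 2 (volume.restrict G) :=
  (h.1.continuous.memLp_of_hasCompactSupport h.2.1)

lemma memLp_gradient_test {G : Set (Eu n)} {φ : Eu n → ℝ} (h : TestIn G φ) :
    MemLp (gradient φ) 2 (volume.restrict G) := by
  apply (gradient_continuous h.1).memLp_of_hasCompactSupport
  have h1 : HasCompactSupport (fderiv ℝ φ) := h.2.1.fderiv ℝ
  exact h1.comp_left (g := (InnerProductSpace.toDual ℝ (Eu n)).symm) (map_zero _)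

section weight

variable {G : Set (Eu n)} (hGo : IsOpen G) (hGb : Bornology.IsBounded G) (x₀ : Eu n) (κ : ℝ)
  (hκ : 0 ≤ κ)

include hGo hGb hκ

lemma memLp_W {F : Type*} [NormedAddCommGroup F] [NormedSpace ℝ F] {g : Eu n → F}
    (hg : MemLp g 2 (volume.restrict G)) :
    MemLp (fun x => Wf x₀ κ x • g x) 2 (volume.restrict G) := by
  obtain ⟨C, hC0, hC⟩ := Wf_bdd hGb x₀ κ hκ
  refine hg.of_le_mul (c := C) ?_ ?_
  · exact (Wf_contDiff x₀ κ).continuous.aestronglyMeasurable.smul hg.1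
  · rw [ae_restrict_iff' hGo.measurableSet]
    filter_upwards with x hx
    rw [norm_smul, Real.norm_eq_abs, abs_of_pos (Wf_pos x₀ κ x)]
    exact mul_le_mul_of_nonneg_right (hC x hx) (norm_nonneg _)

lemma memLp_W_inner {g : Eu n → Eu n} (hg : MemLp g 2 (volume.restrict G)) :
    MemLp (fun x => Wf x₀ κ x * ⟪g x, gradient (wt x₀) x⟫_ℝ) 2 (volume.restrict G) := by
  have h1 : MemLp (fun x => ⟪g x, gradient (wt x₀) x⟫_ℝ) 2 (volume.restrict G) := by
    refine hg.of_le_mul (c := 1) ?_ ?_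
    · exact hg.1.inner (gradient_continuous (wt_contDiff x₀)).aestronglyMeasurable
    · filter_upwards with x
      calc ‖⟪g x, gradient (wt x₀) x⟫_ℝ‖ ≤ ‖g x‖ * ‖gradient (wt x₀) x‖ := norm_inner_le_norm _ _
        _ ≤ ‖g x‖ * 1 := mul_le_mul_of_nonneg_left (norm_gradient_wt x₀ x) (norm_nonneg _)
        _ = 1 * ‖g x‖ := by ring
  exact memLp_W hGo hGb x₀ κ hκ h1

lemma weighted_identity (l l' : ℝ) (v v' : Eu n → ℝ) (g g' : Eu n → Eu n)
    (h : Eig G l v g) (h' : Eig G l' v' g') :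
    ∫ x in G, Real.exp (2 * κ * wt x₀ x) * ⟪g x, g' x⟫_ℝ =
      l * (∫ x in G, Real.exp (2 * κ * wt x₀ x) * (v x * v' x)) -
        2 * κ * ∫ x in G, Real.exp (2 * κ * wt x₀ x) * (v' x * ⟪g x, gradient (wt x₀) x⟫_ℝ) := by
  obtain ⟨⟨hv, hg, -⟩, hweak⟩ := h
  obtain ⟨⟨hv', hg', φ, hφ, hφv, hφg⟩, -⟩ := h'
  have m1 := memLp_W hGo hGb x₀ κ hκ hg
  have m2 := memLp_W_inner hGo hGb x₀ κ hκ hg
  have m3 : MemLp (fun x => Wf x₀ κ x * v x) 2 (volume.restrict G) :=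
    memLp_W hGo hGb x₀ κ hκ hv
  have t1 := lim_inner m1 (fun k => memLp_gradient_test (hφ k)) hg' hφg
  have t2 := lim_mul m2 (fun k => memLp_test (hφ k)) hv' hφv
  have t3 := lim_mul m3 (fun k => memLp_test (hφ k)) hv' hφv
  have key : ∀ k, (∫ x in G, ⟪Wf x₀ κ x • g x, gradient (φ k) x⟫_ℝ) +
      2 * κ * (∫ x in G, Wf x₀ κ x * ⟪g x, gradient (wt x₀) x⟫_ℝ * φ k x) =
      l * ∫ x in G, Wf x₀ κ x * v x * φ k x := by
    intro k
    have h1 := hweak _ (testIn_mul (hφ k) x₀ κ)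
    rw [← integral_const_mul, ← integral_add (integrable_inner m1 (memLp_gradient_test (hφ k)))
      ((integrable_mul m2 (memLp_test (hφ k))).const_mul _)]
    have e1 : ∫ x in G, Wf x₀ κ x * v x * φ k x = ∫ x in G, v x * (Wf x₀ κ x * φ k x) := by
      apply integral_congr_ae
      filter_upwards with x
      ring
    rw [e1, ← h1]
    apply integral_congr_ae
    filter_upwards with x
    rw [gradient_test x₀ κ (hφ k) x, inner_add_right, real_inner_smul_left, real_inner_smul_right,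
      real_inner_smul_right]
    ring
  have t4 := (t1.add (t2.const_mul (2 * κ)))
  have t5 := t3.const_mul l
  simp only [key] at t4
  have h6 := tendsto_nhds_unique t4 t5
  have e1 : ∫ x in G, ⟪Wf x₀ κ x • g x, g' x⟫_ℝ =
      ∫ x in G, Real.exp (2 * κ * wt x₀ x) * ⟪g x, g' x⟫_ℝ := by
    apply integral_congr_ae
    filter_upwards with x
    rw [real_inner_smul_left]
    rfl
  have e2 : ∫ x in G, Wf x₀ κ x * ⟪g x, gradient (wt x₀) x⟫_ℝ * v' x =
      ∫ x in G, Real.exp (2 * κ * wt x₀ x) * (v' x * ⟪g x, gradient (wt x₀) x⟫_ℝ) := by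
    apply integral_congr_ae
    filter_upwards with x
    unfold Wf
    ring
  have e3 : ∫ x in G, Wf x₀ κ x * v x * v' x =
      ∫ x in G, Real.exp (2 * κ * wt x₀ x) * (v x * v' x) := by
    apply integral_congr_ae
    filter_upwards with x
    unfold Wf
    ring
  rw [e1, e2, e3] at h6
  linarith

end weight

/-- Job AV-V1. -/
theorem t_V1 : S_V1 := by
  intro n G hGo hGb x₀ κ hκ
  exact ⟨fun x => norm_gradient_wt x₀ x,
    fun l l' v v' g g' h h' => weighted_identity hGo hGb x₀ κ hκ l l' v v' g g' h h'⟩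

end Pool.Agent.Q272.AV
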