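import Pool.Agent.Q272.AV.V1

set_option autoImplicit false

/-!
# Job AV-V2: the weighted energy inequality
-/

open MeasureTheory Filter Topology Set
open scoped ContDiff InnerProductSpace

namespace Pool.Agent.Q272.AV

open Pool.Agent.Q62.AV

variable {n : ℕ}

section forms

variable {G : Set (Eu n)} (x₀ : Eu n) (κ : ℝ) (v : ℕ → Eu n → ℝ) (g : ℕ → Eu n → Eu n)

/-- `∫ W v_j v_k` -/
noncomputable def PP (G : Set (Eu n)) (x₀ : Eu n) (κ : ℝ) (v : ℕ → Eu n → ℝ) (j k : ℕ) : ℝ :=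
  ∫ x in G, Real.exp (2 * κ * wt x₀ x) * (v j x * v k x)

/-- `∫ W ⟪g_j, g_k⟫` -/
noncomputable def QQ (G : Set (Eu n)) (x₀ : Eu n) (κ : ℝ) (g : ℕ → Eu n → Eu n) (j k : ℕ) : ℝ :=
  ∫ x in G, Real.exp (2 * κ * wt x₀ x) * ⟪g j x, g k x⟫_ℝ

/-- `∫ W v_j ⟪g_k, ∇ wt⟫` -/
noncomputable def RR (G : Set (Eu n)) (x₀ : Eu n) (κ : ℝ) (v : ℕ → Eu n → ℝ)
    (g : ℕ → Eu n → Eu n) (j k : ℕ) : ℝ :=
  ∫ x in G, Real.exp (2 * κ * wt x₀ x) * (v j x * ⟪g k x, gradient (wt x₀) x⟫_ℝ)

lemma PP_symm (j k : ℕ) : PP G x₀ κ v j k = PP G x₀ κ v k j := by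
  unfold PP
  apply integral_congr_ae
  filter_upwards with x
  ring

lemma QQ_symm (j k : ℕ) : QQ G x₀ κ g j k = QQ G x₀ κ g k j := by
  unfold QQ
  apply integral_congr_ae
  filter_upwards with x
  rw [real_inner_comm]

variable (hGo : IsOpen G) (hGb : Bornology.IsBounded G) (hκ : 0 ≤ κ)
  (hv : ∀ j, MemLp (v j) 2 (volume.restrict G)) (hg : ∀ j, MemLp (g j) 2 (volume.restrict G))

include hGo hGb hκ hv hg

lemma int_P (j k : ℕ) :
    Integrable (fun x => Real.exp (2 * κ * wt x₀ x) * (v j x * v k x)) (volume.restrict G) := by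
  refine (integrable_mul (memLp_W hGo hGb x₀ κ hκ (hv j)) (hv k)).congr ?_
  filter_upwards with x
  simp only [smul_eq_mul, Wf]
  ring

lemma int_Q (j k : ℕ) :
    Integrable (fun x => Real.exp (2 * κ * wt x₀ x) * ⟪g j x, g k x⟫_ℝ) (volume.restrict G) := by
  refine (integrable_inner (memLp_W hGo hGb x₀ κ hκ (hg j)) (hg k)).congr ?_
  filter_upwards with x
  rw [real_inner_smul_left]
  rfl

lemma int_R (j k : ℕ) :
    Integrable (fun x => Real.exp (2 * κ * wt x₀ x) * (v j x * ⟪g k x, gradient (wt x₀) x⟫_ℝ))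
      (volume.restrict G) := by
  refine (integrable_mul (memLp_W_inner hGo hGb x₀ κ hκ (hg k)) (hv j)).congr ?_
  filter_upwards with x
  simp only [Wf]
  ring

lemma expand_P (S : Finset ℕ) (c d : ℕ → ℝ) :
    ∫ x in G, Real.exp (2 * κ * wt x₀ x) * ((∑ j ∈ S, c j * v j x) * (∑ j ∈ S, d j * v j x)) =
      ∑ j ∈ S, ∑ k ∈ S, c j * d k * PP G x₀ κ v j k := by
  have e : ∀ x, Real.exp (2 * κ * wt x₀ x) *
      ((∑ j ∈ S, c j * v j x) * (∑ j ∈ S, d j * v j x)) =
      ∑ j ∈ S, ∑ k ∈ S, c j * d k * (Real.exp (2 * κ * wt x₀ x) * (v j x * v k x)) := by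
    intro x
    rw [Finset.sum_mul_sum, Finset.mul_sum]
    apply Finset.sum_congr rfl
    intro j _
    rw [Finset.mul_sum]
    apply Finset.sum_congr rfl
    intro k _
    ring
  simp only [e]
  rw [integral_finsetSum]
  · apply Finset.sum_congr rfl
    intro j _
    rw [integral_finsetSum]
    · apply Finset.sum_congr rfl
      intro k _
      rw [integral_const_mul]
      rfl
    · intro k _
      exact (int_P x₀ κ v g hGo hGb hκ hv hg j k).const_mul _
  · intro j _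
    apply integrable_finsetSum
    intro k _
    exact (int_P x₀ κ v g hGo hGb hκ hv hg j k).const_mul _

lemma expand_Q (S : Finset ℕ) (c d : ℕ → ℝ) :
    ∫ x in G, Real.exp (2 * κ * wt x₀ x) * ⟪∑ j ∈ S, c j • g j x, ∑ j ∈ S, d j • g j x⟫_ℝ =
      ∑ j ∈ S, ∑ k ∈ S, c j * d k * QQ G x₀ κ g j k := by
  have e : ∀ x, Real.exp (2 * κ * wt x₀ x) *
      ⟪∑ j ∈ S, c j • g j x, ∑ j ∈ S, d j • g j x⟫_ℝ =
      ∑ j ∈ S, ∑ k ∈ S, c j * d k * (Real.exp (2 * κ * wt x₀ x) * ⟪g j x, g k x⟫_ℝ) := by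
    intro x
    rw [sum_inner, Finset.mul_sum]
    apply Finset.sum_congr rfl
    intro j _
    rw [inner_sum, Finset.mul_sum]
    apply Finset.sum_congr rfl
    intro k _
    rw [real_inner_smul_left, real_inner_smul_right]
    ring
  simp only [e]
  rw [integral_finsetSum]
  · apply Finset.sum_congr rfl
    intro j _
    rw [integral_finsetSum]
    · apply Finset.sum_congr rfl
      intro k _
      rw [integral_const_mul]
      rfl
    · intro k _
      exact (int_Q x₀ κ v g hGo hGb hκ hv hg j k).const_mul _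
  · intro j _
    apply integrable_finsetSum
    intro k _
    exact (int_Q x₀ κ v g hGo hGb hκ hv hg j k).const_mul _

lemma expand_R (S : Finset ℕ) (c d : ℕ → ℝ) :
    ∫ x in G, Real.exp (2 * κ * wt x₀ x) *
      ((∑ j ∈ S, c j * v j x) * ⟪∑ j ∈ S, d j • g j x, gradient (wt x₀) x⟫_ℝ) =
      ∑ j ∈ S, ∑ k ∈ S, c j * d k * RR G x₀ κ v g j k := by
  have e : ∀ x, Real.exp (2 * κ * wt x₀ x) *
      ((∑ j ∈ S, c j * v j x) * ⟪∑ j ∈ S, d j • g j x, gradient (wt x₀) x⟫_ℝ) =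
      ∑ j ∈ S, ∑ k ∈ S, c j * d k *
        (Real.exp (2 * κ * wt x₀ x) * (v j x * ⟪g k x, gradient (wt x₀) x⟫_ℝ)) := by
    intro x
    rw [sum_inner, Finset.sum_mul_sum, Finset.mul_sum]
    apply Finset.sum_congr rfl
    intro j _
    rw [Finset.mul_sum]
    apply Finset.sum_congr rfl
    intro k _
    rw [real_inner_smul_left]
    ring
  simp only [e]
  rw [integral_finsetSum]
  · apply Finset.sum_congr rfl
    intro j _
    rw [integral_finsetSum]
    · apply Finset.sum_congr rfl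
      intro k _
      rw [integral_const_mul]
      rfl
    · intro k _
      exact (int_R x₀ κ v g hGo hGb hκ hv hg j k).const_mul _
  · intro j _
    apply integrable_finsetSum
    intro k _
    exact (int_R x₀ κ v g hGo hGb hκ hv hg j k).const_mul _

/-- The basic inequality. -/
lemma abs_R_le (S : Finset ℕ) (c d : ℕ → ℝ) :
    2 * |∑ j ∈ S, ∑ k ∈ S, c j * d k * RR G x₀ κ v g j k| ≤
      (∑ j ∈ S, ∑ k ∈ S, c j * c k * PP G x₀ κ v j k) +
        ∑ j ∈ S, ∑ k ∈ S, d j * d k * QQ G x₀ κ g j k := by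
  rw [← expand_R x₀ κ v g hGo hGb hκ hv hg S c d, ← expand_P x₀ κ v g hGo hGb hκ hv hg S c c,
    ← expand_Q x₀ κ v g hGo hGb hκ hv hg S d d]
  have mc : MemLp (fun x => ∑ j ∈ S, c j * v j x) 2 (volume.restrict G) :=
    memLp_finsetSum S (fun j _ => (hv j).const_mul (c j))
  have md : MemLp (fun x => ∑ j ∈ S, d j • g j x) 2 (volume.restrict G) :=
    memLp_finsetSum S (fun j _ => (hg j).const_smul (d j))
  have i1 : Integrable (fun x => Real.exp (2 * κ * wt x₀ x) *
      ((∑ j ∈ S, c j * v j x) * (∑ j ∈ S, c j * v j x))) (volume.restrict G) := by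
    refine (integrable_mul (memLp_W hGo hGb x₀ κ hκ mc) mc).congr ?_
    filter_upwards with x
    simp only [smul_eq_mul, Wf]
    ring
  have i2 : Integrable (fun x => Real.exp (2 * κ * wt x₀ x) *
      ⟪∑ j ∈ S, d j • g j x, ∑ j ∈ S, d j • g j x⟫_ℝ) (volume.restrict G) := by
    refine (integrable_inner (memLp_W hGo hGb x₀ κ hκ md) md).congr ?_
    filter_upwards with x
    rw [real_inner_smul_left]
    rfl
  have i3 : Integrable (fun x => Real.exp (2 * κ * wt x₀ x) *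
      ((∑ j ∈ S, c j * v j x) * ⟪∑ j ∈ S, d j • g j x, gradient (wt x₀) x⟫_ℝ))
      (volume.restrict G) := by
    refine (integrable_mul (memLp_W_inner hGo hGb x₀ κ hκ md) mc).congr ?_
    filter_upwards with x
    simp only [Wf]
    ring
  rw [← integral_add i1 i2]
  have h1 := abs_integral_le_integral_abs (μ := volume.restrict G)
    (f := fun x => Real.exp (2 * κ * wt x₀ x) *
      ((∑ j ∈ S, c j * v j x) * ⟪∑ j ∈ S, d j • g j x, gradient (wt x₀) x⟫_ℝ))
  have h2 : 2 * ∫ x in G, |Real.exp (2 * κ * wt x₀ x) *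
      ((∑ j ∈ S, c j * v j x) * ⟪∑ j ∈ S, d j • g j x, gradient (wt x₀) x⟫_ℝ)| ≤
      ∫ x in G, (Real.exp (2 * κ * wt x₀ x) *
        ((∑ j ∈ S, c j * v j x) * (∑ j ∈ S, c j * v j x)) + Real.exp (2 * κ * wt x₀ x) *
      ⟪∑ j ∈ S, d j • g j x, ∑ j ∈ S, d j • g j x⟫_ℝ) := by
    rw [← integral_const_mul]
    apply integral_mono (i3.abs.const_mul 2) (i1.add i2)
    intro x
    simp only [Pi.add_apply]
    set A := ∑ j ∈ S, c j * v j x
    set B := ∑ j ∈ S, d j • g j x
    have e0 : 0 < Real.exp (2 * κ * wt x₀ x) := Real.exp_pos _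
    rw [abs_mul, abs_mul, abs_of_pos e0, real_inner_self_eq_norm_sq]
    have h3 : |⟪B, gradient (wt x₀) x⟫_ℝ| ≤ ‖B‖ := by
      calc |⟪B, gradient (wt x₀) x⟫_ℝ| ≤ ‖B‖ * ‖gradient (wt x₀) x‖ := abs_real_inner_le_norm _ _
        _ ≤ ‖B‖ * 1 := mul_le_mul_of_nonneg_left (norm_gradient_wt x₀ x) (norm_nonneg _)
        _ = ‖B‖ := mul_one _
    have h4 : 2 * (|A| * |⟪B, gradient (wt x₀) x⟫_ℝ|) ≤ A * A + ‖B‖ ^ 2 := by
      have h5 : |A| * |⟪B, gradient (wt x₀) x⟫_ℝ| ≤ |A| * ‖B‖ :=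
        mul_le_mul_of_nonneg_left h3 (abs_nonneg _)
      have h6 : |A| ^ 2 = A * A := by rw [sq_abs, sq]
      nlinarith [sq_nonneg (|A| - ‖B‖)]
    nlinarith
  linarith

end forms

/-- The energy inequality for abstract forms. -/
lemma energy (S : Finset ℕ) (κ : ℝ) (lam : ℕ → ℝ) (P Q R : ℕ → ℕ → ℝ) (c d : ℝ → ℕ → ℝ)
    (hc : ∀ s j, HasDerivAt (fun s => c s j) (-(lam j * d s j)) s)
    (hd : ∀ s j, HasDerivAt (fun s => d s j) (c s j) s)
    (hP : ∀ j k, P j k = P k j) (hQ : ∀ j k, Q j k = Q k j)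
    (hid : ∀ j k, Q j k = lam j * P j k - 2 * κ * R k j) (hκ : 0 ≤ κ)
    (hR : ∀ c d : ℕ → ℝ, 2 * |∑ j ∈ S, ∑ k ∈ S, c j * d k * R j k| ≤
      (∑ j ∈ S, ∑ k ∈ S, c j * c k * P j k) + ∑ j ∈ S, ∑ k ∈ S, d j * d k * Q j k)
    (t : ℝ) (ht : 0 ≤ t) :
    (∑ j ∈ S, ∑ k ∈ S, (c t j * c t k * P j k + d t j * d t k * Q j k)) ≤
      Real.exp (2 * κ * t) *
        ∑ j ∈ S, ∑ k ∈ S, (c 0 j * c 0 k * P j k + d 0 j * d 0 k * Q j k) := by
  obtain ⟨N, hN⟩ : ∃ N : ℝ → ℝ, ∀ s, N s = ∑ j ∈ S, ∑ k ∈ S,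
      (c s j * c s k * P j k + d s j * d s k * Q j k) := ⟨_, fun _ => rfl⟩
  have hder : ∀ s, HasDerivAt N (-(4 * κ * ∑ j ∈ S, ∑ k ∈ S, c s j * d s k * R j k)) s := by
    intro s
    have h1 : HasDerivAt N (∑ j ∈ S, ∑ k ∈ S,
        (((-(lam j * d s j)) * c s k + c s j * (-(lam k * d s k))) * P j k +
          (c s j * d s k + d s j * c s k) * Q j k)) s := by
      have e : N = fun s => ∑ j ∈ S, ∑ k ∈ S,
        (c s j * c s k * P j k + d s j * d s k * Q j k) := funext hN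
      rw [e]
      apply HasDerivAt.fun_sum
      intro j _
      apply HasDerivAt.fun_sum
      intro k _
      exact (((hc s j).mul (hc s k)).mul_const (P j k)).add
        (((hd s j).mul (hd s k)).mul_const (Q j k))
    convert h1 using 1
    have e1 : ∀ j k, (((-(lam j * d s j)) * c s k + c s j * (-(lam k * d s k))) * P j k +
          (c s j * d s k + d s j * c s k) * Q j k) =
        -(2 * κ) * (c s j * d s k * R j k) + -(2 * κ) * (c s k * d s j * R k j) := by
      intro j k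
      have g1 : Q j k = lam j * P j k - 2 * κ * R k j := hid j k
      have g2 : Q j k = lam k * P j k - 2 * κ * R j k := by
        rw [hQ j k, hid k j, hP k j]
      linear_combination (d s j * c s k) * g1 + (c s j * d s k) * g2
    simp only [e1, Finset.sum_add_distrib]
    rw [Finset.sum_comm (f := fun j k => -(2 * κ) * (c s k * d s j * R k j))]
    simp only [← Finset.mul_sum]
    ring
  have hineq : ∀ s, -(4 * κ * ∑ j ∈ S, ∑ k ∈ S, c s j * d s k * R j k) ≤ 2 * κ * N s := by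
    intro s
    have h1 := hR (c s) (d s)
    have h2 : (∑ j ∈ S, ∑ k ∈ S, c s j * c s k * P j k) +
        ∑ j ∈ S, ∑ k ∈ S, d s j * d s k * Q j k = N s := by
      rw [hN]
      simp only [Finset.sum_add_distrib]
    rw [h2] at h1
    have h3 := neg_abs_le (∑ j ∈ S, ∑ k ∈ S, c s j * d s k * R j k)
    nlinarith
  have hanti : Antitone (fun s => Real.exp (-(2 * κ * s)) * N s) := by
    apply antitone_of_hasDerivAt_nonpos
      (f' := fun s => Real.exp (-(2 * κ * s)) * (-(2 * κ)) * N s +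
        Real.exp (-(2 * κ * s)) * (-(4 * κ * ∑ j ∈ S, ∑ k ∈ S, c s j * d s k * R j k)))
    · intro s
      have h1 : HasDerivAt (fun s : ℝ => -(2 * κ * s)) (-(2 * κ)) s := by
        simpa using ((hasDerivAt_id s).const_mul (2 * κ)).fun_neg
      exact h1.exp.mul (hder s)
    · intro s
      have h1 := hineq s
      have h2 : 0 < Real.exp (-(2 * κ * s)) := Real.exp_pos _
      show Real.exp (-(2 * κ * s)) * (-(2 * κ)) * N s +
        Real.exp (-(2 * κ * s)) * (-(4 * κ * ∑ j ∈ S, ∑ k ∈ S, c s j * d s k * R j k)) ≤ 0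
      nlinarith
  have h5 := hanti ht
  simp only [mul_zero, neg_zero, Real.exp_zero, one_mul] at h5
  rw [← hN, ← hN]
  have h6 : Real.exp (2 * κ * t) * (Real.exp (-(2 * κ * t)) * N t) = N t := by
    rw [← mul_assoc, ← Real.exp_add, add_neg_cancel, Real.exp_zero, one_mul]
  rw [← h6]
  exact mul_le_mul_of_nonneg_left h5 (Real.exp_pos _).le

/-- Job AV-V2. -/
theorem t_V2 (v1 : S_V1) : S_V2 := by
  intro n G hGo hGb lam v g hlam heig x₀ κ hκ S a t ht
  have hv : ∀ j, MemLp (v j) 2 (volume.restrict G) := fun j => (heig j).1.1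
  have hg : ∀ j, MemLp (g j) 2 (volume.restrict G) := fun j => (heig j).1.2.1
  have hid : ∀ j k, QQ G x₀ κ g j k = lam j * PP G x₀ κ v j k - 2 * κ * RR G x₀ κ v g k j := by
    intro j k
    exact (v1 G hGo hGb x₀ κ hκ).2 (lam j) (lam k) (v j) (v k) (g j) (g k) (heig j) (heig k)
  have hsq : ∀ j, 0 < √(lam j) := fun j => Real.sqrt_pos.2 (hlam j)
  have hsq2 : ∀ j, √(lam j) * √(lam j) = lam j := fun j => Real.mul_self_sqrt (hlam j).le
  have h1 : ∀ (s : ℝ) (j : ℕ), HasDerivAt (fun s : ℝ => √(lam j) * s) (√(lam j)) s := by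
    intro s j
    simpa using (hasDerivAt_id s).const_mul (√(lam j))
  have hen := energy S κ lam (PP G x₀ κ v) (QQ G x₀ κ g) (RR G x₀ κ v g)
    (fun s j => a j * Real.cos (√(lam j) * s))
    (fun s j => a j * (Real.sin (√(lam j) * s) / √(lam j)))
    (by
      intro s j
      refine (((h1 s j).cos).const_mul (a j)).congr_deriv ?_
      have h3 := (hsq j).ne'
      have h4 := hsq2 j
      have h5 : lam j * (a j * (Real.sin (√(lam j) * s) / √(lam j))) =
          a j * Real.sin (√(lam j) * s) * √(lam j) := by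
        nth_rewrite 1 [← h4]
        field_simp
      rw [h5]
      ring)
    (by
      intro s j
      refine (((h1 s j).sin.div_const (√(lam j))).const_mul (a j)).congr_deriv ?_
      have h3 := (hsq j).ne'
      field_simp)
    (PP_symm x₀ κ v) (QQ_symm x₀ κ g) hid hκ
    (fun c d => abs_R_le x₀ κ v g hGo hGb hκ hv hg S c d) t ht
  simp only [Finset.sum_add_distrib, mul_zero, Real.cos_zero, mul_one, Real.sin_zero, zero_div,
    zero_mul, Finset.sum_const_zero, add_zero] at hen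
  have e1 := expand_P x₀ κ v g hGo hGb hκ hv hg S (fun j => a j * Real.cos (√(lam j) * t))
    (fun j => a j * Real.cos (√(lam j) * t))
  have e2 := expand_P x₀ κ v g hGo hGb hκ hv hg S a a
  have e3 := expand_Q x₀ κ v g hGo hGb hκ hv hg S
    (fun j => a j * (Real.sin (√(lam j) * t) / √(lam j)))
    (fun j => a j * (Real.sin (√(lam j) * t) / √(lam j)))
  have h0 : 0 ≤ ∫ x in G, Real.exp (2 * κ * wt x₀ x) *
      ⟪∑ j ∈ S, (a j * (Real.sin (√(lam j) * t) / √(lam j))) • g j x,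
        ∑ j ∈ S, (a j * (Real.sin (√(lam j) * t) / √(lam j))) • g j x⟫_ℝ := by
    apply integral_nonneg
    intro x
    have : 0 < Real.exp (2 * κ * wt x₀ x) := Real.exp_pos _
    exact mul_nonneg this.le real_inner_self_nonneg
  simp only [← sq] at e1 e2
  rw [e1, e2]
  linarith

end Pool.Agent.Q272.AV
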