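import Pool.Agent.Q272.AV.V1

set_option autoImplicit false

/-!
# Job AV-V3: finite speed of propagation
-/

open MeasureTheory Filter Topology Set
open scoped ContDiff InnerProductSpace

namespace Pool.Agent.Q272.AV

open Pool.Agent.Q62.AV

section tools

variable {X : Type*} [MeasurableSpace X] {μ : Measure X}

lemma coeFn_sum_smul (S : Finset ℕ) (a : ℕ → ℝ) (e : ℕ → Lp ℝ 2 μ) :
    ((∑ j ∈ S, a j • e j : Lp ℝ 2 μ) : X → ℝ) =ᵐ[μ] fun x => ∑ j ∈ S, a j * (e j) x := by
  classical
  induction S using Finset.induction_on with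
  | empty =>
    simp only [Finset.sum_empty]
    exact Lp.coeFn_zero _ _ _
  | insert i S hi ih =>
    rw [Finset.sum_insert hi]
    filter_upwards [ih, Lp.coeFn_add (a i • e i) (∑ j ∈ S, a j • e j), Lp.coeFn_smul (a i) (e i)]
      with x h1 h2 h3
    rw [h2, Pi.add_apply, h1, h3, Finset.sum_insert hi]
    rfl

lemma norm_sq_eq (f : Lp ℝ 2 μ) : ‖f‖ ^ 2 = ∫ x, f x ^ 2 ∂μ := by
  rw [← real_inner_self_eq_norm_sq, L2.inner_def]
  apply integral_congr_ae
  filter_upwards with x
  simp [sq]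

lemma tendsto_of_hasSum (a : ℕ → ℝ) (e : ℕ → Lp ℝ 2 μ) (f : Lp ℝ 2 μ)
    (h : HasSum (fun j => a j • e j) f) :
    Tendsto (fun N => ∫ x, ((∑ j ∈ Finset.range N, a j * (e j) x) - f x) ^ 2 ∂μ) atTop (𝓝 0) := by
  have h1 : Tendsto (fun N => ‖(∑ j ∈ Finset.range N, a j • e j) - f‖ ^ 2) atTop (𝓝 0) := by
    have h2 := (tendsto_iff_norm_sub_tendsto_zero.1 h.tendsto_sum_nat).pow 2
    simpa using h2
  refine h1.congr (fun N => ?_)
  rw [norm_sq_eq]
  apply integral_congr_ae
  filter_upwards [Lp.coeFn_sub (∑ j ∈ Finset.range N, a j • e j) f,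
    coeFn_sum_smul (Finset.range N) a e] with x h3 h4
  rw [h3, Pi.sub_apply, h4]

lemma lim_weight {w : X → ℝ} {v : X → ℝ} {u : ℕ → X → ℝ} (C : ℝ)
    (hw : AEStronglyMeasurable w μ) (hw0 : ∀ᵐ x ∂μ, 0 ≤ w x) (hwC : ∀ᵐ x ∂μ, w x ≤ C)
    (hu : ∀ k, MemLp (u k) 2 μ) (hv : MemLp v 2 μ)
    (h : Tendsto (fun k => ∫ x, (u k x - v x) ^ 2 ∂μ) atTop (𝓝 0)) :
    Tendsto (fun k => ∫ x, w x * u k x ^ 2 ∂μ) atTop (𝓝 (∫ x, w x * v x ^ 2 ∂μ)) := by
  have mw : ∀ z : X → ℝ, MemLp z 2 μ → MemLp (fun x => w x * z x) 2 μ := by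
    intro z hz
    refine hz.of_le_mul (c := C) (hw.mul hz.1) ?_
    filter_upwards [hw0, hwC] with x h0 hC
    rw [norm_mul, Real.norm_eq_abs, abs_of_nonneg h0]
    exact mul_le_mul_of_nonneg_right hC (norm_nonneg _)
  have t1 := lim_mul (mw v hv) hu hv h
  have t2 : Tendsto (fun k => ∫ x, w x * (u k x - v x) ^ 2 ∂μ) atTop (𝓝 0) := by
    have t3 := h.const_mul C
    rw [mul_zero] at t3
    refine squeeze_zero' (Eventually.of_forall fun k => ?_) (Eventually.of_forall fun k => ?_) t3
    · apply integral_nonneg_of_ae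
      filter_upwards [hw0] with x h0
      exact mul_nonneg h0 (sq_nonneg _)
    · rw [← integral_const_mul]
      have md := (hu k).sub hv
      apply integral_mono_ae
      · refine (integrable_mul (mw _ md) md).congr ?_
        filter_upwards with x
        simp only [Pi.sub_apply]
        ring
      · refine ((integrable_mul md md).const_mul C).congr ?_
        filter_upwards with x
        simp only [Pi.sub_apply]
        ring
      · filter_upwards [hwC] with x hC
        exact mul_le_mul_of_nonneg_right hC (sq_nonneg _)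
  have t4 := ((t1.const_mul 2).sub_const (∫ x, w x * v x * v x ∂μ)).add t2
  have e1 : ∀ k, 2 * (∫ x, w x * v x * u k x ∂μ) - (∫ x, w x * v x * v x ∂μ) +
      ∫ x, w x * (u k x - v x) ^ 2 ∂μ = ∫ x, w x * u k x ^ 2 ∂μ := by
    intro k
    have md := (hu k).sub hv
    have i1 := (integrable_mul (mw v hv) (hu k)).const_mul 2
    have i2 := integrable_mul (mw v hv) hv
    have i3 : Integrable (fun x => w x * (u k x - v x) ^ 2) μ := by
      refine (integrable_mul (mw _ md) md).congr ?_
      filter_upwards with x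
      simp only [Pi.sub_apply]
      ring
    have i4 : Integrable (fun x => 2 * (w x * v x * u k x) - w x * v x * v x) μ := i1.sub i2
    rw [← integral_const_mul, ← integral_sub i1 i2, ← integral_add i4 i3]
    apply integral_congr_ae
    filter_upwards with x
    ring
  have e2 : 2 * (∫ x, w x * v x * v x ∂μ) - (∫ x, w x * v x * v x ∂μ) + 0 =
      ∫ x, w x * v x ^ 2 ∂μ := by
    have : ∫ x, w x * v x * v x ∂μ = ∫ x, w x * v x ^ 2 ∂μ := by
      apply integral_congr_ae
      filter_upwards with x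
      ring
    rw [this]
    ring
  simp only [e1, e2] at t4
  exact t4

end tools

variable {n : ℕ}

/-- Job AV-V3. -/
theorem t_V3 (v0 : S_V0) (v2 : S_V2) : S_V3 := by
  intro n G G₀ hGo hGb hG₀ hsub lam e hDB x₀ r R hr hrR hfar f hf t ht htlt
  obtain ⟨hlam, hex⟩ := hDB
  choose g hg using hex
  obtain ⟨hco, -, -⟩ := v0 e (fun j => Real.cos (√(lam j) * t)) 1
    (fun j => Real.abs_cos_le_one _) f
  set u : HG G := dg e (fun j => Real.cos (√(lam j) * t)) f with hu
  have hsf : HasSum (fun j => ⟪e j, f⟫_ℝ • e j) f := by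
    have := e.hasSum_repr f
    simpa only [HilbertBasis.repr_apply_apply] using this
  have hsu : HasSum (fun j => (⟪e j, f⟫_ℝ * Real.cos (√(lam j) * t)) • e j) u := by
    have := e.hasSum_repr u
    simp only [HilbertBasis.repr_apply_apply, hco] at this
    simpa only [mul_comm] using this
  have tf := tendsto_of_hasSum _ _ _ hsf
  have tu := tendsto_of_hasSum _ _ _ hsu
  have mfin : ∀ (b : ℕ → ℝ) (N : ℕ),
      MemLp (fun x => ∑ j ∈ Finset.range N, b j * (e j : HG G) x) 2 (volume.restrict G) :=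
    fun b N => memLp_finsetSum _ (fun j _ => (Lp.memLp (e j)).const_mul (b j))
  have main : ∀ κ : ℝ, 0 ≤ κ → ∫ x in G, Wf x₀ κ x * (u : HG G) x ^ 2 ≤
      Real.exp (2 * κ * t) * ∫ x in G, Wf x₀ κ x * (f : HG G) x ^ 2 := by
    intro κ hκ
    obtain ⟨C, hC0, hC⟩ := Wf_bdd hGb x₀ κ hκ
    have w1 : AEStronglyMeasurable (Wf x₀ κ) (volume.restrict G) :=
      (Wf_contDiff x₀ κ).continuous.aestronglyMeasurable
    have w2 : ∀ᵐ x ∂(volume.restrict G), 0 ≤ Wf x₀ κ x := by
      filter_upwards with x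
      exact (Wf_pos x₀ κ x).le
    have w3 : ∀ᵐ x ∂(volume.restrict G), Wf x₀ κ x ≤ C := by
      rw [ae_restrict_iff' hGo.measurableSet]
      filter_upwards with x hx
      exact hC x hx
    have l1 := lim_weight C w1 w2 w3 (fun N => mfin _ N) (Lp.memLp u) tu
    have l2 := (lim_weight C w1 w2 w3 (fun N => mfin _ N) (Lp.memLp f) tf).const_mul
      (Real.exp (2 * κ * t))
    refine le_of_tendsto_of_tendsto' l1 l2 (fun N => ?_)
    exact v2 G hGo hGb lam (fun j x => (e j : HG G) x) g hlam hg x₀ κ hκ (Finset.range N)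
      (fun j => ⟪e j, f⟫_ℝ) t ht
  have sqint : ∀ z : HG G, Integrable (fun x => z x ^ 2) (volume.restrict G) := by
    intro z
    refine (integrable_mul (Lp.memLp z) (Lp.memLp z)).congr ?_
    filter_upwards with x
    ring
  have wint : ∀ κ : ℝ, 0 ≤ κ → ∀ z : HG G,
      Integrable (fun x => Wf x₀ κ x * z x ^ 2) (volume.restrict G) := by
    intro κ hκ z
    refine (integrable_mul (memLp_W hGo hGb x₀ κ hκ (Lp.memLp z)) (Lp.memLp z)).congr ?_
    filter_upwards with x
    simp only [smul_eq_mul]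
    ring
  set A : ℝ := ∫ x in G, G₀.indicator (fun x => (u : HG G) x ^ 2) x with hA
  set B : ℝ := ∫ x in G, (f : HG G) x ^ 2 with hB
  set δ : ℝ := √(1 + R ^ 2) - √(1 + r ^ 2) - t with hδ
  have hδ0 : 0 < δ := by rw [hδ]; linarith
  have hineq : ∀ κ : ℝ, 0 ≤ κ → A ≤ Real.exp (-(2 * κ * δ)) * B := by
    intro κ hκ
    have h1 : Real.exp (2 * κ * √(1 + R ^ 2)) * A ≤ ∫ x in G, Wf x₀ κ x * (u : HG G) x ^ 2 := by
      rw [hA, ← integral_const_mul]
      apply integral_mono_ae (((sqint u).indicator hG₀).const_mul _) (wint κ hκ u)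
      filter_upwards with x
      by_cases hx : x ∈ G₀
      · rw [indicator_of_mem hx]
        apply mul_le_mul_of_nonneg_right _ (sq_nonneg _)
        unfold Wf wt
        apply Real.exp_le_exp.2
        have h2 : √(1 + R ^ 2) ≤ √(1 + ‖x - x₀‖ ^ 2) := by
          apply Real.sqrt_le_sqrt
          have h3 := hfar x hx
          rw [dist_eq_norm] at h3
          have := pow_le_pow_left₀ (hr.trans hrR).le h3 2
          linarith
        nlinarith
      · rw [indicator_of_notMem hx, mul_zero]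
        exact mul_nonneg (Wf_pos x₀ κ x).le (sq_nonneg _)
    have h2 : ∫ x in G, Wf x₀ κ x * (f : HG G) x ^ 2 ≤ Real.exp (2 * κ * √(1 + r ^ 2)) * B := by
      rw [hB, ← integral_const_mul]
      apply integral_mono_ae (wint κ hκ f) ((sqint f).const_mul _)
      filter_upwards [hf] with x hx
      by_cases hxb : x ∈ Metric.ball x₀ r
      · apply mul_le_mul_of_nonneg_right _ (sq_nonneg _)
        unfold Wf wt
        apply Real.exp_le_exp.2
        have h3 : √(1 + ‖x - x₀‖ ^ 2) ≤ √(1 + r ^ 2) := by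
          apply Real.sqrt_le_sqrt
          rw [mem_ball_iff_norm] at hxb
          have := pow_le_pow_left₀ (norm_nonneg _) hxb.le 2
          linarith
        nlinarith
      · rw [hx hxb]
        simp
    have h3 := main κ hκ
    have h4 : Real.exp (2 * κ * √(1 + R ^ 2)) * A ≤
        Real.exp (2 * κ * t) * (Real.exp (2 * κ * √(1 + r ^ 2)) * B) :=
      (h1.trans h3).trans (mul_le_mul_of_nonneg_left h2 (Real.exp_pos _).le)
    have h5 : Real.exp (-(2 * κ * δ)) * B = Real.exp (-(2 * κ * √(1 + R ^ 2))) *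
        (Real.exp (2 * κ * t) * (Real.exp (2 * κ * √(1 + r ^ 2)) * B)) := by
      rw [← mul_assoc, ← mul_assoc, ← Real.exp_add, ← Real.exp_add]
      congr 2
      rw [hδ]
      ring
    have h6 : A = Real.exp (-(2 * κ * √(1 + R ^ 2))) * (Real.exp (2 * κ * √(1 + R ^ 2)) * A) := by
      rw [← mul_assoc, ← Real.exp_add, neg_add_cancel, Real.exp_zero, one_mul]
    rw [h5, h6]
    exact mul_le_mul_of_nonneg_left h4 (Real.exp_pos _).le
  have hA0 : A ≤ 0 := by
    have h1 : Tendsto (fun κ : ℝ => Real.exp (-(2 * κ * δ)) * B) atTop (𝓝 (0 * B)) := by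
      apply Tendsto.mul_const
      apply Real.tendsto_exp_neg_atTop_nhds_zero.comp
      have : Tendsto (fun κ : ℝ => κ * (2 * δ)) atTop atTop :=
        tendsto_id.atTop_mul_const (by positivity)
      refine this.congr (fun κ => by ring)
    rw [zero_mul] at h1
    refine ge_of_tendsto h1 ?_
    filter_upwards [eventually_ge_atTop 0] with κ hκ
    exact hineq κ hκ
  have hnn : 0 ≤ᵐ[volume.restrict G] fun x => G₀.indicator (fun x => (u : HG G) x ^ 2) x := by
    filter_upwards with x
    exact indicator_nonneg (fun _ _ => sq_nonneg _) x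
  have hA1 : A = 0 := le_antisymm hA0 (integral_nonneg_of_ae hnn)
  rw [hA, integral_eq_zero_iff_of_nonneg_ae hnn ((sqint u).indicator hG₀)] at hA1
  filter_upwards [hA1] with x hx hxG
  rw [indicator_of_mem hxG] at hx
  simpa using hx

end Pool.Agent.Q272.AV
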